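import Pool.Agent.Y206.Q.Stm
import Pool.Agent.Y206.G.Sys2
import Pool.Agent.Helper947.Geo.B10


set_option autoImplicit false

namespace Pool.Agent.Z864.QG

open MvPolynomial
open Pool.Agent.Helper947.Geo (lf eval_lf IsVan cb_eval_smul cb_lf_prime coprime_of_van)
open Pool.Agent.Y206.G Pool.Agent.Y206.Q

theorem line (hbin : S_BIN) : S_LINE := by
  classical
  intro K _ w a b F G hind hw0 hF hG hI η hη hdvd
  have hcop := coprime_of_van w F G hI
  have hFI : F ∈ Ideal.span {F, G} := Ideal.subset_span (by simp)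
  have hGI : G ∈ Ideal.span {F, G} := Ideal.subset_span (by simp)
  by_cases hGu : IsUnit G
  · have h1 : (1 : MvPolynomial (Fin 3) ℂ) ∈ Ideal.span {F, G} := by
      rw [Ideal.eq_top_of_isUnit_mem _ hGI hGu]
      trivial
    have hK : IsEmpty K := by
      refine ⟨fun k => ?_⟩
      have h2 := (hI 1).1 h1 k 0
      rw [map_one] at h2
      exact one_ne_zero h2
    have hb : b = 0 := by
      have h3 : G.totalDegree = b := hG.totalDegree hGu.ne_zero
      rw [← h3]
      exact (MvPolynomial.isUnit_iff_totalDegree_of_isReduced.1 hGu).2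
    rw [hb]
    exact Nat.card_of_isEmpty
  have hF0 : F ≠ 0 := by
    rintro rfl
    exact hGu (hcop (dvd_zero _) dvd_rfl)
  obtain ⟨F1, hF1⟩ := hdvd
  have hlf0 := lf_ne hη
  have hF10 : F1 ≠ 0 := by
    rintro rfl
    rw [mul_zero] at hF1
    exact hF0 hF1
  have ha : a = 1 + (a - 1) := by
    have h1 := totalDegree_mul_of_isDomain hlf0 hF10
    rw [← hF1, hF.totalDegree hF0, (lf_homog η).totalDegree hlf0] at h1
    omega
  have hF1h : F1.IsHomogeneous (a - 1) :=
    homog_cancel (lf_homog η) hlf0 (by rw [← hF1, ← ha]; exact hF)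
  have hcop1 : IsRelPrime F1 G := fun d h1 h2 =>
    hcop (h1.trans ⟨lf η, by rw [hF1, mul_comm]⟩) h2
  have hprime : Prime (lf η) := by
    obtain ⟨i, hi⟩ := Function.ne_iff.1 hη
    exact cb_lf_prime η (Pi.single i 1) (by rw [dotProduct_single, mul_one]; exact hi)
  obtain ⟨u, hu, huη, husp⟩ := exists_ker_basis η hη
  have hGη : ¬ lf η ∣ G := fun h => hprime.not_isUnit (hcop ⟨F1, hF1⟩ h)
  have hsubη : sub u (lf η) = 0 := by
    apply MvPolynomial.funext
    intro x
    rw [eval_sub, eval_lf, map_zero, dotProduct_sum]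
    refine Finset.sum_eq_zero fun j _ => ?_
    rw [dotProduct_smul, dotProduct_comm, huη, smul_zero]
  obtain ⟨g, hgd⟩ : ∃ g, g = sub u G := ⟨_, rfl⟩
  have hgh : g.IsHomogeneous b := by rw [hgd]; exact sub_hom u G b hG
  have hg0 : g ≠ 0 := by
    intro h0
    apply hGη
    apply dvd_of_vanish hprime.irreducible
    intro P hP
    rw [eval_lf] at hP
    obtain ⟨x, hx⟩ := husp P (by rw [dotProduct_comm]; exact hP)
    rw [← hx, ← eval_sub, ← hgd, h0, map_zero]
  -- coordinates
  have hc : ∀ k, ∃ c : Fin 2 → ℂ, η ⬝ᵥ w k = 0 → ∑ j, c j • u j = w k := by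
    intro k
    by_cases hk : η ⬝ᵥ w k = 0
    · obtain ⟨c, hc⟩ := husp (w k) (by rw [dotProduct_comm]; exact hk)
      exact ⟨c, fun _ => hc⟩
    · exact ⟨0, fun h => absurd h hk⟩
  choose c hc using hc
  obtain ⟨S, hSd⟩ : ∃ S : Finset K, S = Finset.univ.filter fun k => η ⬝ᵥ w k = 0 := ⟨_, rfl⟩
  have hS : ∀ k, k ∈ S ↔ η ⬝ᵥ w k = 0 := fun k => by rw [hSd]; simp
  have hcne : ∀ k ∈ S, c k ≠ 0 := by
    intro k hk h0
    apply hw0 k
    rw [← hc k ((hS k).1 hk), h0]
    simp
  have hdt : ∀ k ∈ S, ∀ l ∈ S, k ≠ l → dt (c k) (c l) ≠ 0 := by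
    intro k hk l hl hkl h0
    have h1 := hind k l hkl
    rw [LinearIndependent.pair_iff] at h1
    have ek := hc k ((hS k).1 hk)
    have el := hc l ((hS l).1 hl)
    rw [Fin.sum_univ_two] at ek el
    unfold dt at h0
    have h2 := h1 (c l 0) (-(c k 0)) (by
      rw [← ek, ← el]
      ext i
      simp only [Pi.add_apply, Pi.smul_apply, smul_eq_mul, Pi.zero_apply]
      linear_combination (-(u 1 i)) * h0)
    have h3 := h1 (c l 1) (-(c k 1)) (by
      rw [← ek, ← el]
      ext i
      simp only [Pi.add_apply, Pi.smul_apply, smul_eq_mul, Pi.zero_apply]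
      linear_combination (u 0 i) * h0)
    apply hcne k hk
    funext i
    fin_cases i
    · exact neg_eq_zero.1 h2.2
    · exact neg_eq_zero.1 h3.2
  have hzero : ∀ k ∈ S, eval (c k) g = 0 := by
    intro k hk
    rw [hgd, eval_sub, hc k ((hS k).1 hk)]
    have := (hI G).1 hGI k 1
    rwa [one_smul] at this
  have hdot : ∀ x y : Fin 2 → ℂ, (![-(x 1), x 0] : Fin 2 → ℂ) ⬝ᵥ y = dt x y := by
    intro x y
    simp only [dotProduct, Fin.sum_univ_two, Matrix.cons_val_zero, Matrix.cons_val_one, dt]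
    ring
  have hn1 : S.card ≤ b := by
    by_contra hcon
    push Not at hcon
    obtain ⟨S', hS', hS'c⟩ := Finset.exists_subset_card_eq hcon.le
    obtain ⟨c0, hc0⟩ := hbin g K S' c (by rw [hS'c]; exact hgh)
      (fun i hi j hj => hdt i (hS' hi) j (hS' hj)) (fun i hi => hcne i (hS' hi))
      (fun i hi => hzero i (hS' hi))
    have hc00 : c0 ≠ 0 := by
      rintro rfl
      exact hg0 (by rw [hc0, C_0, zero_mul])
    obtain ⟨k, hkS, hkS'⟩ := Finset.exists_mem_notMem_of_card_lt_card
      (show S'.card < S.card by rw [hS'c]; exact hcon)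
    have h1 := hzero k hkS
    rw [hc0, map_mul, map_prod, eval_C] at h1
    rcases mul_eq_zero.1 h1 with h | h
    · exact hc00 h
    · rw [Finset.prod_eq_zero_iff] at h
      obtain ⟨i, hi, hi'⟩ := h
      rw [eval_lf, hdot] at hi'
      exact hdt i (hS' hi) k hkS (by rintro rfl; exact hkS' hi) hi'
  -- the other inequality
  choose ζ hζ using fun k => exists_coord u hu (![-(c k 1), c k 0] : Fin 2 → ℂ)
  have hζd : ∀ k (x : Fin 2 → ℂ), ζ k ⬝ᵥ (∑ j, x j • u j) = dt (c k) x := by
    intro k x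
    rw [dotProduct_sum, ← hdot, dotProduct]
    refine Finset.sum_congr rfl fun j _ => ?_
    rw [dotProduct_smul, dotProduct_comm, hζ, smul_eq_mul, mul_comm]
  have hsubζ : ∀ k, sub u (lf (ζ k)) = lf ![-(c k 1), c k 0] := by
    intro k
    apply MvPolynomial.funext
    intro x
    rw [eval_sub, eval_lf, eval_lf, hζd, hdot]
  obtain ⟨p, hpd⟩ : ∃ p, p = ∏ k ∈ S, lf (ζ k) := ⟨_, rfl⟩
  have hpF : p * F1 ∈ Ideal.span {F, G} := by
    rw [hI]
    intro k t
    rw [map_mul]
    by_cases hk : η ⬝ᵥ w k = 0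
    · have h1 : eval (t • w k) p = 0 := by
        rw [hpd, map_prod]
        refine Finset.prod_eq_zero ((hS k).2 hk) ?_
        rw [eval_lf, dotProduct_smul, ← hc k hk, hζd]
        unfold dt
        rw [mul_comm, sub_self, smul_zero]
      rw [h1, zero_mul]
    · have h1 : eval (w k) F1 = 0 := by
        have h2 := (hI F).1 hFI k 1
        rw [one_smul, hF1, map_mul, eval_lf] at h2
        exact (mul_eq_zero.1 h2).resolve_left hk
      rw [cb_eval_smul F1 _ hF1h, h1, mul_zero, mul_zero]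
  obtain ⟨α, β, hαβ⟩ := Ideal.mem_span_pair.1 hpF
  have hαβ' : α * (lf η * F1) + β * G = p * F1 := by rw [← hF1]; exact hαβ
  have hdiv : F1 ∣ β * G := ⟨p - α * lf η, by linear_combination hαβ'⟩
  obtain ⟨β', hβ'⟩ := hcop1.dvd_of_dvd_mul_right hdiv
  have hp : p = α * lf η + β' * G := by
    apply mul_left_cancel₀ hF10
    rw [hβ'] at hαβ'
    linear_combination -hαβ'
  have hsp : sub u p = sub u β' * g := by
    rw [hp, map_add, map_mul, map_mul, hsubη, mul_zero, zero_add, hgd]
  have hsp0 : sub u p ≠ 0 := by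
    rw [hpd, map_prod, Finset.prod_ne_zero_iff]
    intro k hk
    rw [hsubζ]
    apply lf_ne
    intro h0
    apply hcne k hk
    have e0 := congrFun h0 0
    have e1 := congrFun h0 1
    simp only [Matrix.cons_val_zero, Matrix.cons_val_one, Pi.zero_apply] at e0 e1
    funext i
    fin_cases i
    · exact e1
    · exact neg_eq_zero.1 e0
  have hsph : (sub u p).IsHomogeneous S.card := by
    apply sub_hom
    rw [hpd]
    have h1 := MvPolynomial.IsHomogeneous.prod S (fun k => lf (ζ k)) (fun _ => 1)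
      (fun k _ => lf_homog (ζ k))
    rw [Finset.sum_const, smul_eq_mul, mul_one] at h1
    exact h1
  have hn2 : b ≤ S.card := by
    have h1 : sub u β' ≠ 0 := by
      intro h0
      rw [h0, zero_mul] at hsp
      exact hsp0 hsp
    have h2 := totalDegree_mul_of_isDomain h1 hg0
    rw [← hsp, hsph.totalDegree hsp0, hgh.totalDegree hg0] at h2
    omega
  rw [Nat.card_eq_fintype_card, Fintype.card_subtype, ← hSd]
  exact le_antisymm hn1 hn2

end Pool.Agent.Z864.QG
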